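import Pool.Agent.TH684.LB.Adv

/-!
# Linear advice and real parameters do not help deterministic linear space, unless DSPACE(n) = NSPACE(n)

We work with predicates on natural numbers (words written in binary). Deterministic linear space is
the class `ℰ²_*` of Grzegorczyk (Ritchie), `E2s` here, and nondeterministic linear space is the class
`NLin` of the predicates which say that there is a path from `0` to `1` in a graph on the numbers up
to a polynomial in the arguments whose edges are in `ℰ²_*` (the configuration graph of a linearly
bounded automaton). `Adv D` is the class `D` with linear advice: an arbitrary number `a ≤ (N + 2) ^ c`
is given, which may depend on the bound `N` for the arguments in any way.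

Suppose that the numbers `x` with at most `n` binary digits in a set `R` are singled out by a Boolean
combination of `K` polynomial inequalities `p (f₁ x, ..., f_d x) > 0` of degree at most `e`, where the
features `f_i : ℕ → ℕ` are polynomially bounded and computable in deterministic linear space with
linear advice, while the real coefficients of the polynomials and the Boolean combination may depend
arbitrarily on `n`: infinitely many bits of advice, given through real numbers which need not be
computable. The numbers `d`, `e`, `K` are constants. Examples are reductions to left cuts of real
numbers, half-spaces and their intersections, and semialgebraic sets of bounded complexity, different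
ones for different `n`, by functions in `DSPACE(n)/O(n)`.

Theorem: `NSPACE(n) = DSPACE(n)` if and only if for some constants `d`, `e`, `K` all sets of numbers in
`NSPACE(n)` are of this form. The same holds for the inclusion of `NSPACE(n)` in any class `D` which
contains `DSPACE(n)` and is closed under bounded quantification (for instance exponential time), with
features in `D` with linear advice.

Proof: for a chain `R₁ ⊇ ... ⊇ R_k`, `k = 2 ^ m - 1`, of sets in `NSPACE(n)` the binary digits of the
number of the sets which contain `x` form a set in `NSPACE(n)`, by the theorem of Immerman and
Szelepcsényi. The values of the monomials in the features at the `m` digits of `x` are `m` vectors in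
`ℕ ^ s`, `s = (e + 1) ^ d`. Among any `s + 1` of them there is a linear relation with small integer
coefficients, so that one pattern of signs is impossible for all linear forms with real coefficients.
By the lemma of Sauer and Shelah only polynomially many of the `2 ^ m` patterns remain for every
inequality, so for large `m` some pattern of digits is no Boolean combination of `K` remaining
patterns, and the least such pattern is a wrong count. The law of wrong counts
(`MP_768539_lc.WrongCounts`) holds for every class with the closure properties, and `Adv D` has them;
so `NSPACE(n)` is in `Adv D`. An advice for the table of the predicates 'reachable in at most `t`
steps' is recognised by the local rules of the table, so a right one can be found in `D`.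
-/

set_option autoImplicit false

namespace Pool.Agent.Results.MP_768539_lc.AdviceAndRealParameters

open Pool.Agent.TH762.E2 Pool.Agent.TH684.LB

/-- `NSPACE(n) = DSPACE(n)` iff for some constants all sets in `NSPACE(n)` are decided by boundedly
many polynomial inequalities with arbitrary real coefficients in boundedly many features which are
computed in deterministic linear space with linear advice; and the same for the inclusion of
`NSPACE(n)` in any class `D` of predicates that contains deterministic linear space and is closed under
polynomial (in)equalities, Boolean operations, polynomially bounded quantification and renaming of
variables. -/
theorem result :
    ((∀ (n : ℕ) (R : (Fin n → ℕ) → Prop), R ∈ NLin n ↔ R ∈ E2s n) ↔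
      ∃ d e K : ℕ, ∀ R ∈ NLin 1, RealGates (Adv E2s) d e K R) ∧
    ∀ D : (n : ℕ) → Set ((Fin n → ℕ) → Prop), Clo D →
      (∀ (n : ℕ) (R : (Fin n → ℕ) → Prop), R ∈ E2s n → R ∈ D n) →
      ((∀ (n : ℕ) (R : (Fin n → ℕ) → Prop), R ∈ NLin n → R ∈ D n) ↔
        ∃ d e K : ℕ, ∀ R ∈ NLin 1, RealGates (Adv D) d e K R) :=
  ⟨law_lba_adv, fun _ hD hsub => law_adv hD hsub⟩

end Pool.Agent.Results.MP_768539_lc.AdviceAndRealParameters
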