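import Pool.Agent.TH706.LB.Main

/-!
# The cheapest computation of a nondeterministic machine with linear space, and a stack

A nondeterministic machine with `d` bits of memory guesses a bit in each step and shifts it into its
memory (so its transitions are the edges of the layered De Bruijn graph, two from each state at each
time).  Each transition has, at each time, a cost, which is the input; with the costs `0` and `1`
the question if there is a computation of cost `0` is the question if the machine accepts, where the
transitions which are allowed depend on the time in any way.  We want to know the cost of a cheapest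
computation with `T` steps; or the number of the computations, or the sum over the computations of
the products of the weights of their transitions.

We consider pure programs, over `min` and `+`, or over the nonnegative real numbers with `+` and
`*`, which have registers for such numbers and in addition a stack (pushdown store) of unlimited
height for them.

* Savitch's theorem: for `T = 2 ^ t` two registers, a stack and `8 * 2 ^ ((t + 2) (d + 1))` steps are
  enough.
* For `T ≥ 2 ^ d` programs with at most `2 ^ ((1 - ε) d)` registers and a stack need `2 ^ (c d ^ 2)`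
  steps.  So if the time is exponential in `d`, the number of steps is `2 ^ Θ(d ^ 2)` for each number
  of registers between `2` and `2 ^ ((1 - ε) d)`.
* A deterministic machine with linear space stops within `2 ^ (a d)` steps.  Programs with so many
  steps need more than `2 ^ ((1 - ε) d)` registers, already for `T = C d`.

For machines, a stack makes a difference: linear space and a stack give all of
`DTIME(2 ^ O(n))`, which contains `NSPACE(n)` (Cook).  In this model it does not help, and Savitch's
theorem is the best possible.
-/

set_option autoImplicit false

namespace Pool.Agent.Results.MP_768539_lc.CheapestComputationsStack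

open Filter
open Pool.Agent.TH679.DB (pathSum)
open Pool.Agent.TH679.RW (Trans)
open Pool.Agent.TH706.SK (SInstr sexec)
open Pool.Agent.TH706.LB (Cheapest Counts savitch steps regs)
open scoped NNReal

/-- (1) Over each commutative semiring there is a program with two registers, a stack and less than
`8 * 2 ^ ((t + 2) (d + 1))` steps for machines with `d` bits of memory and `2 ^ t` steps.

(2) For each `ε` there is `c > 0` such that for all large `d` and all `T ≥ 2 ^ d` programs with at
most `2 ^ ((1 - ε) d)` registers and a stack, which compute the cost of a cheapest computation with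
`T` steps (or the sum over the computations of the products of the weights), have at least
`2 ^ (c d ^ 2)` steps.

(3) For all `a` and `ε > 0` there is `C` such that for all `d ≥ C` and all `T ≥ C d` such programs
with at most `2 ^ (a d)` steps and a stack have more than `2 ^ ((1 - ε) d)` registers. -/
theorem result :
    (∀ (R : Type) [CommSemiring R] (t d : ℕ),
      ∃ p : List (SInstr R (Trans (2 ^ t) d) (Fin 2)), p.length < 8 * 2 ^ ((t + 2) * (d + 1)) ∧
        ∀ w : Trans (2 ^ t) d → R, sexec w p 0 = pathSum w) ∧
    (∀ ε : ℝ, 0 < ε → ε ≤ 1 → ∃ c : ℝ, 0 < c ∧ ∀ᶠ d : ℕ in atTop, ∀ T : ℕ, 2 ^ d ≤ T →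
      ∀ (ρ : Type) [Fintype ρ] [DecidableEq ρ] (o : ρ),
        (Fintype.card ρ : ℝ) ≤ (2 : ℝ) ^ ((1 - ε) * d) →
        (∀ p : List (SInstr (Tropical (WithTop ℝ)) (Trans T d) ρ),
          Cheapest p o → (2 : ℝ) ^ (c * d ^ 2) ≤ p.length) ∧
        (∀ p : List (SInstr ℝ≥0 (Trans T d) ρ),
          Counts p o → (2 : ℝ) ^ (c * d ^ 2) ≤ p.length)) ∧
    (∀ a ε : ℝ, 0 < ε → ∃ C : ℕ, ∀ d ≥ C, ∀ T ≥ C * d,
      ∀ (ρ : Type) [Fintype ρ] [DecidableEq ρ] (o : ρ),
        (∀ p : List (SInstr (Tropical (WithTop ℝ)) (Trans T d) ρ), Cheapest p o →
          (p.length : ℝ) ≤ (2 : ℝ) ^ (a * d) → (2 : ℝ) ^ ((1 - ε) * d) < Fintype.card ρ) ∧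
        (∀ p : List (SInstr ℝ≥0 (Trans T d) ρ), Counts p o →
          (p.length : ℝ) ≤ (2 : ℝ) ^ (a * d) → (2 : ℝ) ^ ((1 - ε) * d) < Fintype.card ρ)) := by
  refine ⟨fun R _ t d => ?_, fun ε h1 h2 => steps h1 h2, fun a ε h => regs a ε h⟩
  obtain ⟨p, h1, h2⟩ := savitch R t d
  refine ⟨p, lt_of_lt_of_le h1 (le_of_eq ?_), h2⟩
  rw [pow_add]
  ring

end Pool.Agent.Results.MP_768539_lc.CheapestComputationsStack
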