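import Pool.Agent.W896.CN.NFA

/-!
# Circuits of small formal degree cannot simulate nondeterministic automata

A one-way nondeterministic automaton with `O (n ^ 2)` states reads words of length `n`; this is a
non-uniform machine with nondeterministic logarithmic space that reads every letter of its input
only once. We ask how the complement can be recognised, and the machines are given as much as
possible: we consider Boolean circuits with AND gates of fan-in two, OR gates of any fan-in and
negations at the inputs, whose inputs are the bits of the automaton and of the word, and whose formal
degree is only restricted for the letters of the word. Such a circuit accepts if and only if it has a
proof tree all of whose leaves are true literals; the formal degree in an input bit is the largest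
number of leaves with this bit, that is, the number of times this bit is read. Nondeterministic, in
particular deterministic, machines with `n / D` bits of memory (linear space), also with an additional
stack of unlimited height, and with an unlimited number of steps are such circuits of size
`2 ^ O (n / D)`, and a letter which is read at most `k` times on every computation has degree at
most `k`; alternating machines are such circuits as well, and a proof tree may even read any part of
the word again and again in its branches. (Without the restriction of the degrees these circuits with
polynomial size are all polynomial size circuits.) The machines may be chosen at random, with
one-sided error, where a word that is not accepted by the automaton has to be found out with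
probability `2 ^ (- n / D)` only. Still the formal degrees in the letters have to sum up to more than
`k n`, for every constant `k`: there is an automaton which is hard for all machines.

In particular this holds for nondeterministic machines: the inductive counting of Immerman and
Szelepcsényi recognises the complement with a logarithmic memory, but it reads the letters more than
`k n` times, and even with `n / D` bits of memory this is necessary.

The starting file `StackSimulation` is about deterministic machines with a stack, and it only
restricts the number of the reads in the computations which have to exist, `2 ^ (n / D)` being the
bound for the number of nodes; here we have nondeterministic and alternating machines.

Proof. The automaton guesses a clause of a formula in conjunctive normal form and checks that the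
word violates it. There are such formulas of linear size with clauses of constant size which have
many models but no large combinatorial rectangle of models (starting files). The proof trees of a
circuit with small formal degrees can be cut into a constant number of pieces which are determined by
few gates, so that the rectangle theorem for linear time of the starting files applies.
-/

set_option autoImplicit false

namespace Pool.Agent.Results.MP_768539_lc.FormalDegree

open Pool.Agent.W896.RK Pool.Agent.W896.CN

/-- For every `k` there is a constant `D` such that for all `n` and `m ≥ D (n + 1) ^ 2` there is a
nondeterministic automaton `A` with `m` states such that for every finite nonempty family `U r` of
circuits whose inputs are the bits of an automaton with `m` states and of a word of length `n`: if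
no `U r` accepts `A` and a word accepted by `A`, if any word not accepted by `A` is accepted
(together with `A`) by at least a `2 ^ (- ⌊n / D⌋)` fraction of the `U r`, and if in each `U r` the
formal degrees in the letters of the word sum up to at most `k n`, then some `U r` has `g` gates with
`n ≤ D (⌊log₂ g⌋ + 1)`. -/
theorem result (k : ℕ) : ∃ D : ℕ, 0 < D ∧ ∀ n m : ℕ, D * (n + 1) ^ 2 ≤ m →
    ∃ A : NFA Bool (Fin m), ∀ (R : Type) [Fintype R] [Nonempty R] (U : R → Circ (Bit m n)),
      (∀ r w, (U r).Val (bitsOf A w) (U r).out → List.ofFn w ∉ A.accepts) →
      (∀ w : Fin n → Bool, List.ofFn w ∉ A.accepts →
        Nat.card R ≤ 2 ^ (n / D) * Nat.card {r // (U r).Val (bitsOf A w) (U r).out}) →
      (∀ r, ∃ d : (U r).G → Fin n → ℕ, IsDeg (U r) Bit.word d ∧ ∑ i, d (U r).out i ≤ k * n) →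
      ∃ r, n ≤ D * (Nat.log 2 (Fintype.card (U r).G) + 1) :=
  nfa_degree k

end Pool.Agent.Results.MP_768539_lc.FormalDegree
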