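import Pool.Agent.TH762.E2.Lba

/-!
# DSPACE(n) = NSPACE(n) iff deterministic linear space can name wrong counts

We work with predicates on natural numbers (words written in binary). Deterministic linear space is
the class `ℰ²_*` of Grzegorczyk (Ritchie), `E2s` here, and nondeterministic linear space is the class
`NLin` of the predicates which say that there is a path from `0` to `1` in a graph on the numbers up
to a polynomial in the arguments whose edges are in `ℰ²_*` (the configuration graph of a linearly
bounded automaton).

Theorem: `NSPACE(n) = DSPACE(n)` if and only if for some constant `k`, for each chain
`R₁ ⊇ ... ⊇ R_k` of `k` sets in `NSPACE(n)` there is a function `g : ℕ → {0, ..., k}` in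
deterministic linear space such that `g x` is never the number of sets `R_i` which contain `x`. For
`k = 1` this is the same as deciding `R₁`; for larger `k` only one of the `k + 1` possible counts has
to be excluded. The same holds for the inclusion of `NSPACE(n)` in any class which contains
`DSPACE(n)` and is closed under bounded quantification (for instance exponential time).

Proof: let `T(c, t)` say that `c` can be reached in at most `t` steps. For `k` pairs `(c_i, t_i)` the
number `Σ (N+1)^i [T(c_i, t_i)]` codes the truth values, and that this code is at least `c` is in
`NSPACE(n)`, as it is monotone in the `T(c_i, t_i)`. So for any `k + 1` codes one is excluded by the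
hypothesis, and this leaves a list of at most `k` candidates for the truth values at any `k` pairs.
By `MC.world` for some `d < k` there are `k - d - 1` pairs such that their true values together with
the value at one further pair survive the extensions by `d` pairs in exactly one way. A deterministic
machine tries all values at `k - d - 1` pairs, and checks with the recursion for `T` whether the
values which they give are right.
-/

set_option autoImplicit false

namespace Pool.Agent.Results.MP_768539_lc.WrongCounts

open Pool.Agent.TH762.E2

/-- `NSPACE(n) = DSPACE(n)` iff for some `k` wrong counts for chains of `k` sets in `NSPACE(n)` can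
be named in deterministic linear space; and the same for the inclusion of `NSPACE(n)` in any class
`D` of predicates that contains deterministic linear space and is closed under polynomial
(in)equalities, Boolean operations, polynomially bounded quantification and renaming of variables. -/
theorem result :
    ((∀ (n : ℕ) (R : (Fin n → ℕ) → Prop), R ∈ NLin n ↔ R ∈ E2s n) ↔ ∃ k : ℕ, Wrong E2s k) ∧
    ∀ D : (n : ℕ) → Set ((Fin n → ℕ) → Prop), Clo D →
      (∀ (n : ℕ) (R : (Fin n → ℕ) → Prop), R ∈ E2s n → R ∈ D n) →
      ((∀ (n : ℕ) (R : (Fin n → ℕ) → Prop), R ∈ NLin n → R ∈ D n) ↔ ∃ k : ℕ, Wrong D k) :=
  ⟨law_lba, fun _ hD hsub => law_nlin hD hsub⟩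

end Pool.Agent.Results.MP_768539_lc.WrongCounts
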